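import Pool.Agent.Lib.MP_1f45fc_nt_SP.Main

set_option autoImplicit false

/-! MP_1f45fc_nt, sparsity of Salem numbers: final statement. -/

namespace Pool.Agent.SalemCount

open Polynomial Finset

/-- enumeration of a finite set with a given first element -/
theorem exists_enum (S : Finset ℂ) (b : ℂ) (hb : b ∈ S) :
    ∃ (m : ℕ) (z : Fin (m + 1) → ℂ), S.card = m + 1 ∧ Function.Injective z ∧ z 0 = b ∧
      (∀ i, z i ∈ S) ∧ ∏ w ∈ S, (X - C w) = ∏ i, (X - C (z i)) := by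
  classical
  obtain ⟨e⟩ : Nonempty (Fin (S.erase b).card ≃ {w // w ∈ S.erase b}) :=
    ⟨(S.erase b).equivFin.symm⟩
  refine ⟨(S.erase b).card, Fin.cons b (fun i => (e i : ℂ)), ?_, ?_, ?_, ?_, ?_⟩
  · exact (Finset.card_erase_add_one hb).symm
  · rw [Fin.cons_injective_iff]
    refine ⟨?_, fun i j hij => e.injective (Subtype.ext hij)⟩
    rintro ⟨i, hi⟩
    have h1 := (e i).2
    have hi' : (e i : ℂ) = b := hi
    rw [hi'] at h1
    exact absurd h1 (Finset.notMem_erase b S)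
  · rw [Fin.cons_zero]
  · intro i
    rcases Fin.eq_zero_or_eq_succ i with rfl | ⟨j, rfl⟩
    · rw [Fin.cons_zero]
      exact hb
    · rw [Fin.cons_succ]
      exact Finset.mem_of_mem_erase (e j).2
  · rw [Fin.prod_univ_succ, ← Finset.mul_prod_erase S _ hb, Fin.cons_zero]
    congr 1
    simp only [Fin.cons_succ]
    rw [Equiv.prod_comp e (fun w : {w // w ∈ S.erase b} => (X - C (w : ℂ))), Finset.univ_eq_attach,
      Finset.prod_attach (S.erase b) (fun w => (X - C w))]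

/-- the data of a number all of whose other conjugates lie in the closed unit disc -/
theorem exists_dat {c β : ℝ} (h1 : 1 < β) (hc : β ≤ c) (hint : IsIntegral ℤ β)
    (hconj : ∀ z : ℂ, aeval z (minpoly ℤ β) = 0 → z ≠ (β : ℂ) → ‖z‖ ≤ 1) :
    ∃ (m : ℕ) (s : ℕ → ℤ), (minpoly ℤ β).natDegree = m + 1 ∧ Dat c m β s := by
  classical
  obtain ⟨P, hP⟩ : ∃ P : ℤ[X], P = minpoly ℤ β := ⟨_, rfl⟩
  have hmonic : P.Monic := by
    rw [hP]
    exact minpoly.monic hint
  have hQ : P.map (algebraMap ℤ ℚ) = minpoly ℚ β := by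
    rw [hP, minpoly.isIntegrallyClosed_eq_field_fractions' ℚ hint]
  have hintQ : IsIntegral ℚ β := hint.tower_top
  have hsep : (P.map (Int.castRingHom ℂ)).Separable := by
    have g1 : (P.map (algebraMap ℤ ℚ)).Separable := by
      rw [hQ]
      exact (minpoly.irreducible hintQ).separable
    have g2 := g1.map (f := algebraMap ℚ ℂ)
    rw [Polynomial.map_map] at g2
    have g3 : (algebraMap ℚ ℂ).comp (algebraMap ℤ ℚ) = Int.castRingHom ℂ := Subsingleton.elim _ _
    rw [g3] at g2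
    exact g2
  obtain ⟨F, hF⟩ : ∃ F : ℂ[X], F = P.map (Int.castRingHom ℂ) := ⟨_, rfl⟩
  rw [← hF] at hsep
  have hFm : F.Monic := by
    rw [hF]
    exact hmonic.map _
  have hnod := nodup_roots hsep
  have hprod := (IsAlgClosed.splits F).eq_prod_roots_of_monic hFm
  obtain ⟨S, hS⟩ : ∃ S : Finset ℂ, S = F.roots.toFinset := ⟨_, rfl⟩
  have hSprod : F = ∏ w ∈ S, (X - C w) := by
    rw [Finset.prod_eq_multiset_prod, hS, Multiset.toFinset_val, hnod.dedup]
    exact hprod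
  have hmem : ∀ w, w ∈ S ↔ aeval w (minpoly ℤ β) = 0 := by
    intro w
    rw [hS, Multiset.mem_toFinset, mem_roots hFm.ne_zero, IsRoot.def, hF, hP, eval_map,
      aeval_def]
    have g3 : algebraMap ℤ ℂ = Int.castRingHom ℂ := Subsingleton.elim _ _
    rw [g3]
  have hβ : (β : ℂ) ∈ S := by
    rw [hmem]
    have h2 : aeval ((algebraMap ℝ ℂ) β) (minpoly ℤ β) = 0 := by
      rw [aeval_algebraMap_apply, minpoly.aeval, map_zero]
    exact h2
  obtain ⟨m, z, hcard, hinj, hz0, hzS, hzprod⟩ := exists_enum S β hβ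
  have hroots : RootsOf P z := by
    unfold RootsOf
    rw [← hF, hSprod, hzprod]
  choose s hs using fun k => ps_int hroots k
  refine ⟨m, s, ?_, h1, hc, P, z, hroots, hinj, hz0, fun i => ?_, hs⟩
  · rw [← hP]
    exact natDegree_of_roots hroots
  · refine hconj _ ((hmem _).1 (hzS _)) fun h => ?_
    rw [← hz0] at h
    exact absurd (hinj h) (Fin.succ_ne_zero i)

/-- the constant -/
noncomputable def Kc (c : ℝ) : ℝ := 192 * c ^ 4 * (29 + 36 * Real.log (1 + c))

theorem log_two_gt' : (1 / 2 : ℝ) < Real.log 2 := by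
  have := Real.log_two_gt_d9
  linarith

theorem bound_one {c : ℝ} (hc : 1 ≤ c) {n m : ℕ} (hn : 2 ≤ n) (hm : m + 1 ≤ n) :
    ((⌈2 * ((m + 1 : ℕ) : ℝ) * (16 * c ^ 2 * ((m + 1 : ℕ) : ℝ))⌉₊ : ℝ) * c + 1) *
      Real.exp (11 * Real.sqrt (192 * c ^ 4 * (3 * En c (m + 1) + ((m + 1 : ℕ) : ℝ)))) ≤
    34 * c ^ 3 * (n : ℝ) ^ 2 * Real.exp (11 * Real.sqrt (Kc c * (n * Real.log n))) := by
  have hn2 : (2 : ℝ) ≤ n := by exact_mod_cast hn
  have hmn : ((m + 1 : ℕ) : ℝ) ≤ n := by exact_mod_cast hm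
  have hm1 : (1 : ℝ) ≤ ((m + 1 : ℕ) : ℝ) := by exact_mod_cast Nat.succ_le_succ (Nat.zero_le m)
  obtain ⟨x, hx⟩ : ∃ x : ℝ, x = ((m + 1 : ℕ) : ℝ) := ⟨_, rfl⟩
  have hc2 : 1 ≤ c ^ 2 := one_le_pow₀ hc
  have hc3 : 1 ≤ c ^ 3 := one_le_pow₀ hc
  have hn2' : 1 ≤ (n : ℝ) ^ 2 := one_le_pow₀ (by linarith)
  have hlogn : 1 / 2 < Real.log n := by
    have h1 := Real.log_le_log (by norm_num) hn2
    have h2 := log_two_gt'
    linarith
  have hlogc : 0 ≤ Real.log (1 + c) := Real.log_nonneg (by linarith)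
  refine mul_le_mul ?_ ?_ (Real.exp_pos _).le (by positivity)
  · rw [← hx] at hmn hm1 ⊢
    have h1 : (⌈2 * x * (16 * c ^ 2 * x)⌉₊ : ℝ) ≤ 2 * x * (16 * c ^ 2 * x) + 1 :=
      (Nat.ceil_lt_add_one (by positivity)).le
    have h2 : x ^ 2 ≤ (n : ℝ) ^ 2 := pow_le_pow_left₀ (by linarith) hmn 2
    have h3 : (2 * x * (16 * c ^ 2 * x) + 1) * c + 1 = 32 * c ^ 3 * x ^ 2 + c + 1 := by ring
    have h4 : (⌈2 * x * (16 * c ^ 2 * x)⌉₊ : ℝ) * c + 1 ≤ 32 * c ^ 3 * x ^ 2 + c + 1 := by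
      rw [← h3]
      have := mul_le_mul_of_nonneg_right h1 (by linarith : (0 : ℝ) ≤ c)
      linarith
    have h5 : 32 * c ^ 3 * x ^ 2 ≤ 32 * c ^ 3 * (n : ℝ) ^ 2 :=
      mul_le_mul_of_nonneg_left h2 (by positivity)
    have h6 : c ≤ c ^ 3 * (n : ℝ) ^ 2 := by
      have g1 : c ≤ c ^ 3 := le_self_pow₀ hc (by norm_num)
      have g2 : c ^ 3 * 1 ≤ c ^ 3 * (n : ℝ) ^ 2 := mul_le_mul_of_nonneg_left hn2' (by positivity)
      linarith
    have h7 : 1 ≤ c ^ 3 * (n : ℝ) ^ 2 := hc.trans h6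
    linarith
  · refine Real.exp_le_exp.2 (mul_le_mul_of_nonneg_left (Real.sqrt_le_sqrt ?_) (by norm_num))
    unfold Kc
    have e0 : 192 * c ^ 4 * (29 + 36 * Real.log (1 + c)) * (n * Real.log n) =
        192 * c ^ 4 * ((29 + 36 * Real.log (1 + c)) * (n * Real.log n)) := by ring
    rw [e0]
    refine mul_le_mul_of_nonneg_left ?_ (by positivity)
    have h1 : (n : ℝ) ≤ 2 * (n * Real.log n) := by nlinarith
    have h2 : En c (m + 1) ≤ 3 * (2 * (n * Real.log n) + (n * Real.log n) +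
        4 * Real.log (1 + c) * (n * Real.log n)) := by
      unfold En
      rw [← hx] at hmn hm1 ⊢
      refine mul_le_mul_of_nonneg_left ?_ (by norm_num : (0 : ℝ) ≤ 3)
      have g1 : Real.log (x + 1) ≤ 2 * Real.log n := by
        have e1 : 2 * Real.log n = Real.log ((n : ℝ) ^ 2) := by
          rw [Real.log_pow]
          push_cast
          ring
        rw [e1]
        refine Real.log_le_log (by linarith) ?_
        nlinarith
      have g2 : x * Real.log (x + 1) ≤ n * (2 * Real.log n) :=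
        mul_le_mul hmn g1 (Real.log_nonneg (by linarith)) (by linarith)
      have g3 : 2 * x * Real.log (1 + c) ≤ 4 * Real.log (1 + c) * (n * Real.log n) := by
        have e2 : 2 * x ≤ 2 * (2 * (n * Real.log n)) := by linarith
        have e3 := mul_le_mul_of_nonneg_right e2 hlogc
        linarith
      linarith
    linarith

theorem bound_two {c : ℝ} (hc : 1 ≤ c) {n : ℕ} (hn : 2 ≤ n) :
    (n : ℝ) * (34 * c ^ 3 * (n : ℝ) ^ 2 * Real.exp (11 * Real.sqrt (Kc c * (n * Real.log n)))) ≤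
      Real.exp ((Real.log (34 * c ^ 3) + 3 + 11 * Real.sqrt (Kc c)) *
        Real.sqrt (n * Real.log n)) := by
  have hn2 : (2 : ℝ) ≤ n := by exact_mod_cast hn
  have hc3 : 1 ≤ c ^ 3 := one_le_pow₀ hc
  have hlogc : 0 ≤ Real.log (1 + c) := Real.log_nonneg (by linarith)
  have hK : 0 ≤ Kc c := by
    unfold Kc
    positivity
  have hlogn : 1 / 2 < Real.log n := by
    have h1 := Real.log_le_log (by norm_num) hn2
    have h2 := log_two_gt'
    linarith
  have hL1 : 1 ≤ (n : ℝ) * Real.log n := by nlinarith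
  have hs1 : 1 ≤ Real.sqrt (n * Real.log n) := by
    rw [Real.le_sqrt' (by norm_num), one_pow]
    exact hL1
  have hlog34 : 0 ≤ Real.log (34 * c ^ 3) := Real.log_nonneg (by linarith)
  have hlogs : Real.log n ≤ Real.sqrt (n * Real.log n) := by
    refine Real.le_sqrt_of_sq_le ?_
    have h1 : Real.log n ≤ n := (Real.log_le_sub_one_of_pos (by linarith)).trans (by linarith)
    nlinarith
  rw [Real.sqrt_mul hK]
  have h1 : (n : ℝ) * (34 * c ^ 3 * (n : ℝ) ^ 2 *
      Real.exp (11 * (Real.sqrt (Kc c) * Real.sqrt (n * Real.log n)))) =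
      Real.exp (Real.log (34 * c ^ 3) + 3 * Real.log n +
        11 * (Real.sqrt (Kc c) * Real.sqrt (n * Real.log n))) := by
    rw [Real.exp_add, Real.exp_add, Real.exp_log (by positivity)]
    have h2 : Real.exp (3 * Real.log n) = (n : ℝ) ^ 3 := by
      have h3 : (3 : ℝ) * Real.log n = Real.log ((n : ℝ) ^ 3) := by
        rw [Real.log_pow]
        push_cast
        ring
      rw [h3, Real.exp_log (by positivity)]
    rw [h2]
    ring
  rw [h1]
  refine Real.exp_le_exp.2 ?_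
  have h4 : Real.log (34 * c ^ 3) ≤ Real.log (34 * c ^ 3) * Real.sqrt (n * Real.log n) :=
    le_mul_of_one_le_right hlog34 hs1
  nlinarith

/-- the final theorem -/
theorem main (c : ℝ) : ∃ C : ℝ, ∀ n : ℕ, 2 ≤ n → ∀ S : Set ℝ,
    (∀ β ∈ S, 1 < β ∧ β ≤ c ∧ IsIntegral ℤ β ∧ (minpoly ℤ β).natDegree ≤ n ∧
      ∀ z : ℂ, aeval z (minpoly ℤ β) = 0 → z ≠ (β : ℂ) → ‖z‖ ≤ 1) →
    S.Finite ∧ (S.ncard : ℝ) ≤ Real.exp (C * Real.sqrt (n * Real.log n)) := by
  classical
  obtain ⟨c', hc'⟩ : ∃ c' : ℝ, c' = max c 1 := ⟨_, rfl⟩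
  have hc1 : 1 ≤ c' := by
    rw [hc']
    exact le_max_right _ _
  refine ⟨Real.log (34 * c' ^ 3) + 3 + 11 * Real.sqrt (Kc c'), fun n hn S hS => ?_⟩
  have hfin : ∀ T : Finset ℝ, (T : Set ℝ) ⊆ S → (T.card : ℝ) ≤
      Real.exp ((Real.log (34 * c' ^ 3) + 3 + 11 * Real.sqrt (Kc c')) *
        Real.sqrt (n * Real.log n)) := by
    intro T hT
    have hdat : ∀ β ∈ T, ∃ (m : ℕ) (s : ℕ → ℤ), (minpoly ℤ β).natDegree = m + 1 ∧
        Dat c' m β s := by
      intro β hβ
      obtain ⟨g1, g2, g3, _, g5⟩ := hS β (hT hβ)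
      exact exists_dat g1 (by rw [hc']; exact g2.trans (le_max_left _ _)) g3 g5
    have hex : ∃ s : ℝ → ℕ → ℤ, ∀ β ∈ T, Dat c' ((minpoly ℤ β).natDegree - 1) β (s β) := by
      have h1 : ∀ β : ℝ, ∃ s : ℕ → ℤ, β ∈ T → Dat c' ((minpoly ℤ β).natDegree - 1) β s := by
        intro β
        by_cases hβ : β ∈ T
        · obtain ⟨m, s, hm, hs⟩ := hdat β hβ
          refine ⟨s, fun _ => ?_⟩
          rw [hm, Nat.add_sub_cancel]
          exact hs
        · exact ⟨0, fun h => absurd h hβ⟩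
      choose s hs using h1
      exact ⟨s, fun β hβ => hs β hβ⟩
    obtain ⟨s, hs⟩ := hex
    have hmaps : ∀ β ∈ T, (minpoly ℤ β).natDegree - 1 ∈ Finset.range n := by
      intro β hβ
      obtain ⟨m, _, hm, _⟩ := hdat β hβ
      have h2 := (hS β (hT hβ)).2.2.2.1
      rw [Finset.mem_range]
      omega
    have hcard := Finset.card_eq_sum_card_fiberwise hmaps
    have hsum : (T.card : ℝ) ≤ ∑ _m ∈ Finset.range n, (34 * c' ^ 3 * (n : ℝ) ^ 2 *
        Real.exp (11 * Real.sqrt (Kc c' * (n * Real.log n)))) := by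
      rw [hcard]
      push_cast
      refine Finset.sum_le_sum fun m hm => ?_
      rw [Finset.mem_range] at hm
      refine le_trans (card_dat hc1 m _ s fun β hβ => ?_) (bound_one hc1 hn hm)
      rw [Finset.mem_filter] at hβ
      have h3 := hs β hβ.1
      rw [hβ.2] at h3
      exact h3
    rw [Finset.sum_const, Finset.card_range, nsmul_eq_mul] at hsum
    exact hsum.trans (bound_two hc1 hn)
  have hSfin : S.Finite := by
    by_contra hinf
    obtain ⟨N, hN⟩ := exists_nat_gt (Real.exp ((Real.log (34 * c' ^ 3) + 3 +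
      11 * Real.sqrt (Kc c')) * Real.sqrt (n * Real.log n)))
    obtain ⟨T, hT, hTN⟩ := (show S.Infinite from hinf).exists_subset_card_eq N
    have h4 := hfin T hT
    rw [hTN] at h4
    linarith
  refine ⟨hSfin, ?_⟩
  rw [Set.ncard_eq_toFinset_card S hSfin]
  exact hfin _ (by rw [Set.Finite.coe_toFinset])

end Pool.Agent.SalemCount
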