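import Mathlib

set_option autoImplicit false

/-! MP_1f45fc_nt, sparsity of Salem numbers: number of integral vectors with `∑ k q_k² ≤ E`. -/

namespace Pool.Agent.SalemCount

open Finset

/-- the factor of the generating function -/
noncomputable def fk (R : ℝ) (k : ℕ) : ℝ :=
  (1 + Real.exp (-(k / R))) / (1 - Real.exp (-(k / R)))

theorem exp_neg_lt_one {R : ℝ} (hR : 1 ≤ R) {k : ℕ} (hk : 1 ≤ k) :
    Real.exp (-(k / R)) < 1 := by
  rw [Real.exp_lt_one_iff]
  have h1 : (0 : ℝ) < k := by exact_mod_cast hk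
  have h2 : 0 < (k : ℝ) / R := by positivity
  linarith

theorem fk_pos {R : ℝ} (hR : 1 ≤ R) {k : ℕ} (hk : 1 ≤ k) : 0 < fk R k := by
  unfold fk
  have h1 := exp_neg_lt_one hR hk
  have h2 := Real.exp_pos (-(k / R))
  exact div_pos (by linarith) (by linarith)

theorem fk_small {R : ℝ} (hR : 1 ≤ R) {k : ℕ} (hk : 1 ≤ k) (hkR : (k : ℝ) ≤ 2 * R) :
    fk R k ≤ 6 * R / k := by
  unfold fk
  have hk0 : (0 : ℝ) < k := by exact_mod_cast hk
  have hR0 : 0 < R := by linarith
  obtain ⟨x, hx⟩ : ∃ x : ℝ, x = k / R := ⟨_, rfl⟩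
  have hx0 : 0 < x := by rw [hx]; positivity
  have hx2 : x ≤ 2 := by
    rw [hx, div_le_iff₀ hR0]
    exact hkR
  have h6 : 6 * R / k = 6 / x := by
    rw [hx]
    field_simp
  rw [h6, ← hx]
  have h1 : x / (1 + x) ≤ 1 - Real.exp (-x) := by
    have h2 : Real.exp (-x) ≤ 1 / (1 + x) := by
      rw [Real.exp_neg, ← one_div]
      refine one_div_le_one_div_of_le (by linarith) ?_
      have := Real.add_one_le_exp x
      linarith
    have h3 : x / (1 + x) = 1 - 1 / (1 + x) := by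
      field_simp
      ring
    rw [h3]
    linarith
  have h4 : 1 + Real.exp (-x) ≤ 2 := by
    have : Real.exp (-x) ≤ 1 := Real.exp_le_one_iff.2 (by linarith)
    linarith
  have h5 : 0 < x / (1 + x) := by positivity
  calc (1 + Real.exp (-x)) / (1 - Real.exp (-x)) ≤ 2 / (x / (1 + x)) :=
        div_le_div₀ (by norm_num) h4 h5 h1
    _ = 2 * (1 + x) / x := by field_simp
    _ ≤ 6 / x := by
        refine div_le_div_of_nonneg_right ?_ hx0.le
        linarith

theorem fk_large {R : ℝ} (hR : 1 ≤ R) {k : ℕ} (hk : 2 ≤ k) :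
    fk R k ≤ Real.exp (4 * R ^ 2 * (1 / ((k : ℝ) - 1) - 1 / k)) := by
  unfold fk
  have hk2 : (2 : ℝ) ≤ k := by exact_mod_cast hk
  have hk0 : (0 : ℝ) < k := by linarith
  have hR0 : 0 < R := by linarith
  obtain ⟨x, hx⟩ : ∃ x : ℝ, x = k / R := ⟨_, rfl⟩
  have hx0 : 0 < x := by rw [hx]; positivity
  rw [← hx]
  have h1 : x ^ 2 / 2 ≤ Real.exp x - 1 := by
    have := Real.quadratic_le_exp_of_nonneg hx0.le
    linarith
  have h2 : 0 < Real.exp x - 1 := lt_of_lt_of_le (by positivity) h1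
  have h3 : (1 + Real.exp (-x)) / (1 - Real.exp (-x)) = 1 + 2 / (Real.exp x - 1) := by
    rw [Real.exp_neg]
    have h4 : Real.exp x ≠ 0 := (Real.exp_pos x).ne'
    have h5 : Real.exp x - 1 ≠ 0 := h2.ne'
    have h6 : 1 - (Real.exp x)⁻¹ ≠ 0 := by
      intro h
      apply h5
      field_simp at h
      linarith
    field_simp
    ring
  rw [h3]
  have h4 : 2 / (Real.exp x - 1) ≤ 4 * R ^ 2 * (1 / ((k : ℝ) - 1) - 1 / k) := by
    have h5 : 2 / (Real.exp x - 1) ≤ 2 / (x ^ 2 / 2) :=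
      div_le_div_of_nonneg_left (by norm_num) (by positivity) h1
    have h6 : 2 / (x ^ 2 / 2) = 4 * R ^ 2 * (1 / (k : ℝ) ^ 2) := by
      rw [hx]
      field_simp
      norm_num
    have h7 : 1 / (k : ℝ) ^ 2 ≤ 1 / ((k : ℝ) - 1) - 1 / k := by
      have h8 : 1 / ((k : ℝ) - 1) - 1 / k = 1 / (((k : ℝ) - 1) * k) := by
        have : (k : ℝ) - 1 ≠ 0 := by linarith
        field_simp
        ring
      rw [h8]
      refine one_div_le_one_div_of_le (mul_pos (by linarith) hk0) ?_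
      nlinarith
    rw [h6] at h5
    refine h5.trans ?_
    exact mul_le_mul_of_nonneg_left h7 (by positivity)
  refine (add_le_add_right h4 1).trans ?_
  have := Real.add_one_le_exp (4 * R ^ 2 * (1 / ((k : ℝ) - 1) - 1 / k))
  linarith

theorem prod_small {R : ℝ} (hR : 1 ≤ R) (n : ℕ) (hn : (n : ℝ) ≤ 2 * R) :
    ∏ i ∈ range n, fk R (i + 1) ≤ (6 * R) ^ n / n.factorial := by
  induction n with
  | zero => simp
  | succ n ih =>
    have hn' : (n : ℝ) + 1 ≤ 2 * R := by
      push_cast at hn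
      exact hn
    rw [prod_range_succ]
    have h1 := ih (by linarith)
    have h2 := fk_small hR (k := n + 1) (by omega) (by push_cast; exact hn')
    have h3 := mul_le_mul h1 h2 (fk_pos hR (by omega)).le (by positivity)
    refine h3.trans (le_of_eq ?_)
    rw [pow_succ, Nat.factorial_succ]
    push_cast
    field_simp

theorem prod_all {R : ℝ} (hR : 1 ≤ R) (n : ℕ) :
    ∏ i ∈ range n, fk R (i + 1) ≤ Real.exp (10 * R) := by
  obtain ⟨K, hK⟩ : ∃ K : ℕ, K = ⌈R⌉₊ := ⟨_, rfl⟩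
  have hKR : R ≤ K := by rw [hK]; exact Nat.le_ceil R
  have hK2 : (K : ℝ) ≤ 2 * R := by
    have := Nat.ceil_lt_add_one (show 0 ≤ R by linarith)
    rw [hK]
    linarith
  have hK1 : 1 ≤ K := by
    have h1 : (1 : ℝ) ≤ K := hR.trans hKR
    exact_mod_cast h1
  rcases Nat.le_total n K with hn | hn
  · have h1 : (n : ℝ) ≤ K := by exact_mod_cast hn
    refine (prod_small hR n (h1.trans hK2)).trans ?_
    refine (Real.pow_div_factorial_le_exp (6 * R) (by linarith) n).trans ?_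
    exact Real.exp_le_exp.2 (by linarith)
  · have key : ∀ n, K ≤ n → ∏ i ∈ range n, fk R (i + 1) ≤
        Real.exp (6 * R + 4 * R ^ 2 * (1 / (K : ℝ) - 1 / n)) := by
      intro n hn
      induction n, hn using Nat.le_induction with
      | base =>
        rw [sub_self, mul_zero, add_zero]
        exact (prod_small hR K hK2).trans (Real.pow_div_factorial_le_exp (6 * R) (by linarith) K)
      | succ n hn ih =>
        rw [prod_range_succ]
        have h2 := fk_large hR (k := n + 1) (by omega)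
        have h3 := mul_le_mul ih h2 (fk_pos hR (by omega)).le (Real.exp_pos _).le
        refine h3.trans (le_of_eq ?_)
        rw [← Real.exp_add]
        congr 1
        push_cast
        ring
    refine (key n hn).trans (Real.exp_le_exp.2 ?_)
    have hK0 : (0 : ℝ) < K := by exact_mod_cast hK1
    have h1 : 4 * R ^ 2 * (1 / (K : ℝ) - 1 / n) ≤ 4 * R := by
      have h2 : 1 / (K : ℝ) - 1 / n ≤ 1 / R := by
        have h3 : 1 / (K : ℝ) ≤ 1 / R := one_div_le_one_div_of_le (by linarith) hKR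
        have h4 : (0 : ℝ) ≤ 1 / n := by positivity
        linarith
      refine (mul_le_mul_of_nonneg_left h2 (by positivity)).trans (le_of_eq ?_)
      have : R ≠ 0 := by linarith
      field_simp
    linarith

theorem sum_symm (y : ℝ) (M : ℕ) :
    ∑ a ∈ Icc (-(M : ℤ)) M, y ^ a.natAbs = 1 + 2 * ∑ j ∈ range M, y ^ (j + 1) := by
  induction M with
  | zero => simp
  | succ M ih =>
    have h1 : Icc (-((M + 1 : ℕ) : ℤ)) ((M + 1 : ℕ) : ℤ) =
        insert ((M + 1 : ℕ) : ℤ) (insert (-((M + 1 : ℕ) : ℤ)) (Icc (-(M : ℤ)) M)) := by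
      ext a
      simp only [mem_insert, mem_Icc]
      push_cast
      omega
    rw [h1, sum_insert, sum_insert, ih, sum_range_succ, Int.natAbs_neg, Int.natAbs_natCast]
    · ring
    · simp only [mem_Icc]
      push_cast
      omega
    · simp only [mem_insert, mem_Icc]
      push_cast
      omega

theorem sum_le {y : ℝ} (hy0 : 0 < y) (hy1 : y < 1) (M : ℕ) :
    ∑ a ∈ Icc (-(M : ℤ)) M, y ^ a.natAbs ≤ (1 + y) / (1 - y) := by
  rw [sum_symm]
  have h1 : ∑ j ∈ range M, y ^ (j + 1) = y * ((1 - y ^ M) / (1 - y)) := by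
    have h2 : ∀ j ∈ range M, y ^ (j + 1) = y * y ^ j := fun j _ => by rw [pow_succ]; ring
    rw [sum_congr rfl h2, ← mul_sum, geom_sum_eq hy1.ne]
    have h3 : y - 1 ≠ 0 := by linarith
    have h4 : 1 - y ≠ 0 := by linarith
    congr 1
    field_simp
    ring
  rw [h1]
  have h5 : 0 < 1 - y := by linarith
  rw [le_div_iff₀ h5]
  have h6 : (1 + 2 * (y * ((1 - y ^ M) / (1 - y)))) * (1 - y) = 1 - y + 2 * y * (1 - y ^ M) := by
    field_simp
  rw [h6]
  have h7 : 0 < y ^ M := by positivity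
  nlinarith

theorem natAbs_le_sq (a : ℤ) : (a.natAbs : ℝ) ≤ (a : ℝ) ^ 2 := by
  rw [Nat.cast_natAbs, Int.cast_abs]
  rcases eq_or_ne a 0 with rfl | ha
  · simp
  · have h1 : (1 : ℝ) ≤ |(a : ℝ)| := by
      rw [← Int.cast_abs]
      exact_mod_cast Int.one_le_abs ha
    rw [← sq_abs]
    nlinarith

/-- the number of integral vectors in an ellipsoid -/
theorem card_le (n : ℕ) {R : ℝ} (hR : 1 ≤ R) (S : Finset (Fin n → ℤ))
    (hS : ∀ q ∈ S, ∑ i : Fin n, (((i : ℕ) + 1 : ℕ) : ℝ) * (q i : ℝ) ^ 2 ≤ R ^ 2) :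
    (S.card : ℝ) ≤ Real.exp (11 * R) := by
  have hR0 : 0 < R := by linarith
  obtain ⟨M, hM⟩ := exists_nat_ge (R ^ 2)
  have habs : ∀ q ∈ S, ∀ i, (q i).natAbs ≤ M := by
    intro q hq i
    have h1 := hS q hq
    have h2 : (((i : ℕ) + 1 : ℕ) : ℝ) * (q i : ℝ) ^ 2 ≤ R ^ 2 := by
      refine le_trans ?_ h1
      exact Finset.single_le_sum (f := fun i : Fin n => (((i : ℕ) + 1 : ℕ) : ℝ) * (q i : ℝ) ^ 2)
        (fun j _ => by positivity) (mem_univ i)
    have h3 : (1 : ℝ) ≤ (((i : ℕ) + 1 : ℕ) : ℝ) := by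
      push_cast
      have : (0 : ℝ) ≤ ((i : ℕ) : ℝ) := by positivity
      linarith
    have h4 : ((q i).natAbs : ℝ) ≤ (q i : ℝ) ^ 2 := natAbs_le_sq (q i)
    have h5 : (q i : ℝ) ^ 2 ≤ (((i : ℕ) + 1 : ℕ) : ℝ) * (q i : ℝ) ^ 2 :=
      le_mul_of_one_le_left (by positivity) h3
    have h6 : ((q i).natAbs : ℝ) ≤ M := by linarith
    exact_mod_cast h6
  have hsub : S ⊆ Fintype.piFinset fun _ : Fin n => Icc (-(M : ℤ)) M := by
    intro q hq
    rw [Fintype.mem_piFinset]
    intro i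
    have := habs q hq i
    rw [mem_Icc]
    omega
  have hw : ∀ q : Fin n → ℤ, ∏ i : Fin n, Real.exp (-((((i : ℕ) + 1 : ℕ) : ℝ) / R)) ^ (q i).natAbs =
      Real.exp (-(∑ i : Fin n, (((i : ℕ) + 1 : ℕ) : ℝ) * ((q i).natAbs : ℝ)) / R) := by
    intro q
    rw [neg_div, Finset.sum_div, ← Finset.sum_neg_distrib, Real.exp_sum]
    refine Finset.prod_congr rfl fun i _ => ?_
    rw [← Real.exp_nat_mul]
    congr 1
    ring
  have hlow : ∀ q ∈ S, Real.exp (-R) ≤
      ∏ i : Fin n, Real.exp (-((((i : ℕ) + 1 : ℕ) : ℝ) / R)) ^ (q i).natAbs := by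
    intro q hq
    rw [hw]
    refine Real.exp_le_exp.2 ?_
    rw [neg_div]
    refine neg_le_neg ?_
    rw [div_le_iff₀ hR0]
    have h1 := hS q hq
    refine le_trans (Finset.sum_le_sum fun i _ => ?_) (h1.trans (le_of_eq (by ring)))
    refine mul_le_mul_of_nonneg_left ?_ (by positivity)
    exact natAbs_le_sq (q i)
  have h1 : (S.card : ℝ) * Real.exp (-R) ≤ ∑ q ∈ S,
      ∏ i : Fin n, Real.exp (-((((i : ℕ) + 1 : ℕ) : ℝ) / R)) ^ (q i).natAbs := by
    rw [← nsmul_eq_mul]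
    exact Finset.card_nsmul_le_sum _ _ _ hlow
  have h2 : ∑ q ∈ S, ∏ i : Fin n, Real.exp (-((((i : ℕ) + 1 : ℕ) : ℝ) / R)) ^ (q i).natAbs ≤
      ∏ i : Fin n, ∑ a ∈ Icc (-(M : ℤ)) M,
        Real.exp (-((((i : ℕ) + 1 : ℕ) : ℝ) / R)) ^ a.natAbs := by
    rw [Finset.prod_univ_sum]
    exact Finset.sum_le_sum_of_subset_of_nonneg hsub fun q _ _ =>
      Finset.prod_nonneg fun i _ => by positivity
  have h3 : ∏ i : Fin n, ∑ a ∈ Icc (-(M : ℤ)) M,
      Real.exp (-((((i : ℕ) + 1 : ℕ) : ℝ) / R)) ^ a.natAbs ≤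
      ∏ i : Fin n, fk R ((i : ℕ) + 1) := by
    refine Finset.prod_le_prod (fun i _ => Finset.sum_nonneg fun a _ => by positivity)
      (fun i _ => ?_)
    exact sum_le (Real.exp_pos _) (exp_neg_lt_one hR (by omega)) M
  have h4 : ∏ i : Fin n, fk R ((i : ℕ) + 1) = ∏ i ∈ range n, fk R (i + 1) := by
    rw [Finset.prod_range]
  have h5 := h1.trans (h2.trans (h3.trans (le_of_eq h4)))
  have h6 := h5.trans (prod_all hR n)
  have h7 : (S.card : ℝ) = (S.card : ℝ) * Real.exp (-R) * Real.exp R := by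
    rw [mul_assoc, ← Real.exp_add, neg_add_cancel, Real.exp_zero, mul_one]
  rw [h7]
  refine (mul_le_mul_of_nonneg_right h6 (Real.exp_pos R).le).trans (le_of_eq ?_)
  rw [← Real.exp_add]
  congr 1
  ring

end Pool.Agent.SalemCount
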