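import Pool.Agent.Lib.MP_1f45fc_nt_SP.Disc

set_option autoImplicit false

/-! MP_1f45fc_nt, sparsity of Salem numbers: the trace sequences. -/

namespace Pool.Agent.SalemCount

open Polynomial Finset

/-- `β` is a root of a monic integral polynomial of degree `m + 1` with distinct roots, all other
roots lie in the closed unit disc, `s k` is the `k`-th power sum of the roots -/
def Dat (c : ℝ) (m : ℕ) (β : ℝ) (s : ℕ → ℤ) : Prop :=
  1 < β ∧ β ≤ c ∧ ∃ (P : ℤ[X]) (z : Fin (m + 1) → ℂ), RootsOf P z ∧ Function.Injective z ∧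
    z 0 = β ∧ (∀ i : Fin m, ‖z i.succ‖ ≤ 1) ∧ ∀ k, ps z k = s k

theorem le_eq {n : ℕ} (z : Fin n → ℂ) : le z = ∑ i, ∑ j, Real.log ‖z i - z j‖ := by
  unfold le
  refine Finset.sum_congr rfl fun i _ => ?_
  rw [← Finset.add_sum_erase univ _ (mem_univ i)]
  simp

theorem ps_succ {m : ℕ} (z : Fin (m + 1) → ℂ) (k : ℕ) :
    ps z k = z 0 ^ k + ps (fun i : Fin m => z i.succ) k := by
  unfold ps
  rw [Fin.sum_univ_succ]

theorem norm_ps_le {m : ℕ} (w : Fin m → ℂ) (hw : ∀ i, ‖w i‖ ≤ 1) (k : ℕ) : ‖ps w k‖ ≤ m := by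
  unfold ps
  refine (norm_sum_le _ _).trans ?_
  have h1 : ∑ i : Fin m, ‖w i ^ k‖ ≤ ∑ _i : Fin m, (1 : ℝ) :=
    Finset.sum_le_sum fun i _ => by
      rw [norm_pow]
      exact pow_le_one₀ (norm_nonneg _) (hw i)
  refine h1.trans ?_
  simp

theorem ps_tail {m : ℕ} {β : ℝ} {s : ℕ → ℤ} {z : Fin (m + 1) → ℂ} (h0 : z 0 = β)
    (hs : ∀ k, ps z k = s k) (k : ℕ) :
    ‖ps (fun i : Fin m => z i.succ) k‖ = |(s k : ℝ) - β ^ k| := by
  have h1 : ps (fun i : Fin m => z i.succ) k = (((s k : ℝ) - β ^ k : ℝ) : ℂ) := by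
    have h2 := ps_succ z k
    rw [hs k, h0] at h2
    push_cast
    rw [h2]
    ring
  rw [h1, Complex.norm_real, Real.norm_eq_abs]

/-- trivial bound -/
theorem Dat.abs_le {c : ℝ} {m : ℕ} {β : ℝ} {s : ℕ → ℤ} (h : Dat c m β s) (k : ℕ) :
    |(s k : ℝ) - β ^ k| ≤ m := by
  obtain ⟨_, _, P, z, _, _, h0, hz, hs⟩ := h
  rw [← ps_tail h0 hs k]
  exact norm_ps_le _ hz k

/-- congruences -/
theorem Dat.congr {c : ℝ} {m : ℕ} {β β' : ℝ} {s s' : ℕ → ℤ} (h : Dat c m β s)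
    (h' : Dat c m β' s') (k : ℕ) (hk : 1 ≤ k) (hag : ∀ j, 1 ≤ j → j < k → s j = s' j) :
    (k : ℤ) ∣ s k - s' k := by
  obtain ⟨_, _, P, z, hP, _, _, _, hs⟩ := h
  obtain ⟨_, _, P', z', hP', _, _, _, hs'⟩ := h'
  refine ps_congr hP hP' k hk (fun j h1 h2 => ?_) _ _ (hs k) (hs' k)
  rw [hs, hs', hag j h1 h2]

/-- determination -/
theorem Dat.det {c : ℝ} {m : ℕ} {β β' : ℝ} {s s' : ℕ → ℤ} (h : Dat c m β s)
    (h' : Dat c m β' s') (hag : ∀ j, 1 ≤ j → j ≤ m + 1 → s j = s' j) : β = β' := by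
  obtain ⟨hβ, _, P, z, hP, _, h0, hz, hs⟩ := h
  obtain ⟨hβ', _, P', z', hP', _, h0', hz', hs'⟩ := h'
  have hPP : P = P' := eq_of_ps hP hP' fun j h1 h2 => by rw [hs, hs', hag j h1 h2]
  subst hPP
  have h1 : (∏ i, (X - C (z i))) = ∏ i, (X - C (z' i)) := by
    rw [← hP, ← hP']
  have h2 := congrArg (Polynomial.eval (z 0)) h1
  rw [eval_prod, eval_prod] at h2
  have h3 : ∏ i, eval (z 0) (X - C (z i)) = 0 :=
    Finset.prod_eq_zero (mem_univ 0) (by simp)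
  rw [h3] at h2
  obtain ⟨i, _, hi⟩ := Finset.prod_eq_zero_iff.1 h2.symm
  rw [eval_sub, eval_X, eval_C, sub_eq_zero] at hi
  rcases Fin.eq_zero_or_eq_succ i with rfl | ⟨j, rfl⟩
  · rw [h0, h0'] at hi
    exact_mod_cast hi
  · exfalso
    have h4 := hz' j
    rw [← hi, h0, Complex.norm_real, Real.norm_eq_abs, abs_of_pos (by linarith)] at h4
    linarith

theorem le_succ {m : ℕ} (z : Fin (m + 1) → ℂ) :
    le z = le (fun i : Fin m => z i.succ) + 2 * ∑ i : Fin m, Real.log ‖z 0 - z i.succ‖ := by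
  rw [le_eq, le_eq, Fin.sum_univ_succ]
  simp only [Fin.sum_univ_succ, sub_self, norm_zero, Real.log_zero, zero_add]
  rw [Finset.sum_add_distrib]
  have h1 : ∀ i : Fin m, ‖z i.succ - z 0‖ = ‖z 0 - z i.succ‖ := fun i => norm_sub_rev _ _
  simp only [h1]
  ring

/-- the energy bound -/
noncomputable def En (c : ℝ) (n : ℕ) : ℝ :=
  3 * (n * Real.log (n + 1) + n / 2 + 2 * n * Real.log (1 + c))

theorem Dat.energy_le {c : ℝ} {m : ℕ} {β : ℝ} {s : ℕ → ℤ} (h : Dat c m β s) :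
    ∑ k ∈ Icc 1 (m + 1), ((s k : ℝ) - β ^ k) ^ 2 / k ≤ En c (m + 1) := by
  obtain ⟨hβ, hβc, P, z, hP, hinj, h0, hz, hs⟩ := h
  obtain ⟨w, hw⟩ : ∃ w : Fin m → ℂ, w = fun i => z i.succ := ⟨_, rfl⟩
  have hwinj : Function.Injective w := by
    rw [hw]
    exact fun i j hij => Fin.succ_injective _ (hinj hij)
  have hw1 : ∀ i, ‖w i‖ ≤ 1 := by
    rw [hw]
    exact hz
  have hn0 : (0 : ℝ) < (m : ℝ) + 1 := by positivity
  obtain ⟨r, hr⟩ : ∃ r : ℝ, r = ((m : ℝ) + 1) / ((m : ℝ) + 2) := ⟨_, rfl⟩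
  have hr0 : 0 < r := by rw [hr]; positivity
  have hr1 : r < 1 := by
    rw [hr, div_lt_one (by positivity)]
    linarith
  have h1 := energy w hw1 hwinj r hr0 hr1 (m + 1)
  have hle : -le w ≤ 2 * (m * Real.log (1 + c)) := by
    have h2 := le_nonneg hP hinj
    rw [le_succ, ← hw] at h2
    have h3 : ∑ i : Fin m, Real.log ‖z 0 - z i.succ‖ ≤ ∑ _i : Fin m, Real.log (1 + c) := by
      refine Finset.sum_le_sum fun i _ => ?_
      have h4 : ‖z 0 - z i.succ‖ ≤ 1 + c := by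
        refine (norm_sub_le _ _).trans ?_
        rw [h0, Complex.norm_real, Real.norm_eq_abs, abs_of_pos (by linarith)]
        have := hz i
        linarith
      have h5 : 0 < ‖z 0 - z i.succ‖ := norm_pos_iff.2 (sub_ne_zero.2 fun h =>
        absurd (hinj h) (Fin.succ_ne_zero i).symm)
      exact Real.log_le_log h5 h4
    rw [Finset.sum_const, card_univ, Fintype.card_fin, nsmul_eq_mul] at h3
    linarith
  have hlog1 : 1 / (1 - r) = (m : ℝ) + 2 := by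
    rw [hr]
    field_simp
    ring
  have hlog2 : Real.log (1 / r) ≤ 1 / ((m : ℝ) + 1) := by
    have h2 : 1 / r = 1 + 1 / ((m : ℝ) + 1) := by
      rw [hr]
      field_simp
      ring
    rw [h2]
    have := Real.log_le_sub_one_of_pos (show 0 < 1 + 1 / ((m : ℝ) + 1) by positivity)
    linarith
  have hlogc : 0 ≤ Real.log (1 + c) := Real.log_nonneg (by linarith)
  have hlogm : 0 ≤ Real.log ((m : ℝ) + 2) := Real.log_nonneg (by
    have : (0 : ℝ) ≤ m := by positivity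
    linarith)
  have hm0 : (0 : ℝ) ≤ m := by positivity
  have hRHS : (m : ℝ) * Real.log (1 / (1 - r)) + (m : ℝ) ^ 2 / 2 * Real.log (1 / r) - le w ≤
      En c (m + 1) / 3 := by
    rw [hlog1]
    unfold En
    push_cast
    have h2 : (m : ℝ) * Real.log ((m : ℝ) + 2) ≤ ((m : ℝ) + 1) * Real.log ((m : ℝ) + 1 + 1) := by
      have : (m : ℝ) + 1 + 1 = (m : ℝ) + 2 := by ring
      rw [this]
      nlinarith
    have h3 : (m : ℝ) ^ 2 / 2 * Real.log (1 / r) ≤ ((m : ℝ) + 1) / 2 := by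
      have h4 : (m : ℝ) ^ 2 / 2 * Real.log (1 / r) ≤ (m : ℝ) ^ 2 / 2 * (1 / ((m : ℝ) + 1)) :=
        mul_le_mul_of_nonneg_left hlog2 (by positivity)
      refine h4.trans ?_
      rw [mul_one_div, div_div, div_le_div_iff₀ (by positivity) (by positivity)]
      nlinarith
    have h5 : 2 * ((m : ℝ) * Real.log (1 + c)) ≤ 2 * ((m : ℝ) + 1) * Real.log (1 + c) := by
      nlinarith
    linarith
  have hrk : ∀ k ∈ Icc 1 (m + 1), (1 / 3 : ℝ) ≤ r ^ k := by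
    intro k hk
    rw [mem_Icc] at hk
    have h2 : r ^ (m + 1) ≤ r ^ k := pow_le_pow_of_le_one hr0.le hr1.le hk.2
    refine le_trans ?_ h2
    have h3 : r⁻¹ ≤ Real.exp (1 / ((m : ℝ) + 1)) := by
      have h4 : r⁻¹ = 1 / ((m : ℝ) + 1) + 1 := by
        rw [hr]
        field_simp
        ring
      rw [h4]
      exact Real.add_one_le_exp _
    have h5 : (r⁻¹) ^ (m + 1) ≤ Real.exp 1 := by
      refine (pow_le_pow_left₀ (by positivity) h3 (m + 1)).trans (le_of_eq ?_)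
      rw [← Real.exp_nat_mul]
      congr 1
      push_cast
      field_simp
    rw [inv_pow] at h5
    have h6 : Real.exp 1 ≤ 3 := by
      have := Real.exp_one_lt_d9
      linarith
    have h7 : 0 < r ^ (m + 1) := by positivity
    have h8 := h5.trans h6
    rw [inv_le_comm₀ h7 (by norm_num)] at h8
    rw [one_div]
    exact h8
  have hterm : ∀ k ∈ Icc 1 (m + 1), ((s k : ℝ) - β ^ k) ^ 2 / k ≤
      3 * (r ^ k * ‖∑ i, w i ^ k‖ ^ 2 / k) := by
    intro k hk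
    have h2 : ‖∑ i, w i ^ k‖ = |(s k : ℝ) - β ^ k| := by
      rw [hw]
      exact ps_tail h0 hs k
    rw [h2, sq_abs]
    have h3 := hrk k hk
    have h4 : 0 ≤ ((s k : ℝ) - β ^ k) ^ 2 / k := by positivity
    calc ((s k : ℝ) - β ^ k) ^ 2 / k = 3 * (1 / 3 * (((s k : ℝ) - β ^ k) ^ 2 / k)) := by ring
      _ ≤ 3 * (r ^ k * (((s k : ℝ) - β ^ k) ^ 2 / k)) := by
        refine mul_le_mul_of_nonneg_left ?_ (by norm_num)
        exact mul_le_mul_of_nonneg_right h3 h4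
      _ = 3 * (r ^ k * ((s k : ℝ) - β ^ k) ^ 2 / k) := by ring
  calc ∑ k ∈ Icc 1 (m + 1), ((s k : ℝ) - β ^ k) ^ 2 / k
      ≤ ∑ k ∈ Icc 1 (m + 1), 3 * (r ^ k * ‖∑ i, w i ^ k‖ ^ 2 / k) := Finset.sum_le_sum hterm
    _ = 3 * ∑ k ∈ Icc 1 (m + 1), r ^ k * ‖∑ i, w i ^ k‖ ^ 2 / k := by rw [Finset.mul_sum]
    _ ≤ 3 * (En c (m + 1) / 3) := by
        refine mul_le_mul_of_nonneg_left (h1.trans hRHS) (by norm_num)
    _ = En c (m + 1) := by ring

end Pool.Agent.SalemCount
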