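import Mathlib

set_option autoImplicit false

/-! MP_1f45fc_nt, sparsity of Salem numbers: the energy inequality for points of the unit disc. -/

namespace Pool.Agent.SalemCount

open Finset

/-- logarithmic energy of distinct points -/
noncomputable def le {n : ℕ} (z : Fin n → ℂ) : ℝ :=
  ∑ i, ∑ j ∈ univ.erase i, Real.log ‖z i - z j‖

/-- real part of the logarithmic series -/
theorem hasSum_re_log {w : ℂ} (hw : ‖w‖ < 1) :
    HasSum (fun k : ℕ => (w ^ k).re / k) (-Real.log ‖1 - w‖) := by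
  have h1 := Complex.hasSum_taylorSeries_neg_log hw
  have h2 := Complex.hasSum_re h1
  have h3 : (-Complex.log (1 - w)).re = -Real.log ‖1 - w‖ := by
    rw [Complex.neg_re, Complex.log_re]
  rw [h3] at h2
  have h4 : (fun k : ℕ => (w ^ k).re / k) = fun k : ℕ => (w ^ k / (k : ℂ)).re := by
    funext k
    rw [← Complex.ofReal_natCast, Complex.div_ofReal_re]
  rw [h4]
  exact h2

/-- comparison of the kernels -/
theorem kernel_sq (u v : ℂ) (r : ℝ) :
    ‖1 - r * (u * (starRingEnd ℂ) v)‖ ^ 2 =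
      r * ‖u - v‖ ^ 2 + (1 - r * ‖u‖ ^ 2) * (1 - r * ‖v‖ ^ 2) := by
  rw [← Complex.normSq_eq_norm_sq, ← Complex.normSq_eq_norm_sq, ← Complex.normSq_eq_norm_sq,
    ← Complex.normSq_eq_norm_sq]
  simp only [Complex.normSq_apply, Complex.sub_re, Complex.sub_im, Complex.mul_re, Complex.mul_im,
    Complex.one_re, Complex.one_im, Complex.ofReal_re, Complex.ofReal_im, Complex.conj_re,
    Complex.conj_im]
  ring

theorem kernel_le {u v : ℂ} (hu : ‖u‖ ≤ 1) (hv : ‖v‖ ≤ 1) {r : ℝ} (hr0 : 0 < r) (hr1 : r < 1)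
    (huv : u ≠ v) :
    Real.log ‖u - v‖ + Real.log r / 2 ≤ Real.log ‖1 - r * (u * (starRingEnd ℂ) v)‖ := by
  have h0 : 0 < ‖u - v‖ := norm_pos_iff.2 (sub_ne_zero.2 huv)
  have hu2 : ‖u‖ ^ 2 ≤ 1 := pow_le_one₀ (norm_nonneg _) hu
  have hv2 : ‖v‖ ^ 2 ≤ 1 := pow_le_one₀ (norm_nonneg _) hv
  have h1 : r * ‖u - v‖ ^ 2 ≤ ‖1 - r * (u * (starRingEnd ℂ) v)‖ ^ 2 := by
    rw [kernel_sq]
    have h2 : 0 ≤ 1 - r * ‖u‖ ^ 2 := by nlinarith
    have h3 : 0 ≤ 1 - r * ‖v‖ ^ 2 := by nlinarith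
    have h4 := mul_nonneg h2 h3
    linarith
  have h5 : 0 < r * ‖u - v‖ ^ 2 := by positivity
  have h6 : 0 < ‖1 - r * (u * (starRingEnd ℂ) v)‖ := by
    by_contra h
    have h7 : ‖1 - r * (u * (starRingEnd ℂ) v)‖ = 0 := le_antisymm (not_lt.1 h) (norm_nonneg _)
    rw [h7] at h1
    simp at h1
    linarith
  have h8 := Real.log_le_log h5 h1
  rw [Real.log_mul hr0.ne' (by positivity), Real.log_pow, Real.log_pow] at h8
  push_cast at h8
  linarith

theorem norm_w_lt {u v : ℂ} (hu : ‖u‖ ≤ 1) (hv : ‖v‖ ≤ 1) {r : ℝ} (hr0 : 0 < r) (hr1 : r < 1) :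
    ‖(r : ℂ) * (u * (starRingEnd ℂ) v)‖ < 1 := by
  rw [norm_mul, norm_mul, Complex.norm_real, Real.norm_eq_abs, abs_of_pos hr0,
    RCLike.norm_conj]
  have h1 : ‖u‖ * ‖v‖ ≤ 1 := mul_le_one₀ hu (norm_nonneg _) hv
  have h2 : 0 ≤ ‖u‖ * ‖v‖ := by positivity
  nlinarith

/-- the energy inequality -/
theorem energy {m : ℕ} (z : Fin m → ℂ) (hz : ∀ i, ‖z i‖ ≤ 1) (hinj : Function.Injective z)
    (r : ℝ) (hr0 : 0 < r) (hr1 : r < 1) (K : ℕ) :
    ∑ k ∈ Icc 1 K, r ^ k * ‖∑ i, z i ^ k‖ ^ 2 / k ≤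
      m * Real.log (1 / (1 - r)) + (m : ℝ) ^ 2 / 2 * Real.log (1 / r) - le z := by
  have hsum : HasSum (fun k : ℕ => ∑ i, ∑ j,
      (((r : ℂ) * (z i * (starRingEnd ℂ) (z j))) ^ k).re / k)
      (∑ i, ∑ j, -Real.log ‖1 - (r : ℂ) * (z i * (starRingEnd ℂ) (z j))‖) :=
    hasSum_sum fun i _ => hasSum_sum fun j _ =>
      hasSum_re_log (norm_w_lt (hz i) (hz j) hr0 hr1)
  have hterm : ∀ k : ℕ, ∑ i, ∑ j,
      (((r : ℂ) * (z i * (starRingEnd ℂ) (z j))) ^ k).re / k =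
      r ^ k * ‖∑ i, z i ^ k‖ ^ 2 / k := by
    intro k
    have h1 : ∑ i, ∑ j, (((r : ℂ) * (z i * (starRingEnd ℂ) (z j))) ^ k) =
        ((r ^ k * ‖∑ i, z i ^ k‖ ^ 2 : ℝ) : ℂ) := by
      have h2 : ((‖∑ i, z i ^ k‖ ^ 2 : ℝ) : ℂ) = (∑ i, z i ^ k) *
          (starRingEnd ℂ) (∑ i, z i ^ k) := by
        rw [Complex.mul_conj, Complex.normSq_eq_norm_sq]
      rw [Complex.ofReal_mul, h2, map_sum, Finset.sum_mul_sum, Finset.mul_sum]
      refine Finset.sum_congr rfl fun i _ => ?_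
      rw [Finset.mul_sum]
      refine Finset.sum_congr rfl fun j _ => ?_
      rw [map_pow]
      push_cast
      ring
    have h3 := congrArg Complex.re h1
    rw [Complex.ofReal_re, Complex.re_sum] at h3
    simp only [Complex.re_sum] at h3
    rw [← h3, Finset.sum_div]
    refine Finset.sum_congr rfl fun i _ => ?_
    rw [Finset.sum_div]
  have hle : ∑ k ∈ Icc 1 K, r ^ k * ‖∑ i, z i ^ k‖ ^ 2 / k ≤
      ∑ i, ∑ j, -Real.log ‖1 - (r : ℂ) * (z i * (starRingEnd ℂ) (z j))‖ := by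
    have h1 := sum_le_hasSum (Icc 1 K) (fun k _ => by
      show 0 ≤ ∑ i, ∑ j, (((r : ℂ) * (z i * (starRingEnd ℂ) (z j))) ^ k).re / k
      rw [hterm]
      positivity) hsum
    refine le_trans (le_of_eq ?_) h1
    exact Finset.sum_congr rfl fun k _ => (hterm k).symm
  refine hle.trans ?_
  have hdiag : ∀ i, -Real.log ‖1 - (r : ℂ) * (z i * (starRingEnd ℂ) (z i))‖ ≤
      Real.log (1 / (1 - r)) := by
    intro i
    rw [one_div, Real.log_inv]
    refine neg_le_neg ?_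
    refine Real.log_le_log (by linarith) ?_
    have h1 : (1 : ℂ) - (r : ℂ) * (z i * (starRingEnd ℂ) (z i)) =
        ((1 - r * ‖z i‖ ^ 2 : ℝ) : ℂ) := by
      rw [Complex.mul_conj, Complex.normSq_eq_norm_sq]
      push_cast
      ring
    rw [h1, Complex.norm_real, Real.norm_eq_abs]
    have h2 : ‖z i‖ ^ 2 ≤ 1 := pow_le_one₀ (norm_nonneg _) (hz i)
    refine le_trans ?_ (le_abs_self _)
    nlinarith
  have hrow : ∀ i, ∑ j, -Real.log ‖1 - (r : ℂ) * (z i * (starRingEnd ℂ) (z j))‖ ≤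
      Real.log (1 / (1 - r)) + ∑ j ∈ univ.erase i, (-Real.log ‖z i - z j‖ +
        Real.log (1 / r) / 2) := by
    intro i
    rw [← Finset.add_sum_erase univ _ (mem_univ i)]
    refine add_le_add (hdiag i) (Finset.sum_le_sum fun j hj => ?_)
    have hij : z i ≠ z j := fun h => (Finset.ne_of_mem_erase hj) (hinj h).symm
    have h1 := kernel_le (hz i) (hz j) hr0 hr1 hij
    rw [one_div, Real.log_inv]
    linarith
  refine (Finset.sum_le_sum fun i _ => hrow i).trans ?_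
  rw [Finset.sum_add_distrib, Finset.sum_const, card_univ, Fintype.card_fin, nsmul_eq_mul]
  have h5 : ∀ i : Fin m, ∑ j ∈ univ.erase i, (-Real.log ‖z i - z j‖ + Real.log (1 / r) / 2) =
      -(∑ j ∈ univ.erase i, Real.log ‖z i - z j‖) + ((m - 1 : ℕ) : ℝ) * (Real.log (1 / r) / 2) := by
    intro i
    rw [Finset.sum_add_distrib, Finset.sum_neg_distrib, Finset.sum_const,
      Finset.card_erase_of_mem (mem_univ i), card_univ, Fintype.card_fin, nsmul_eq_mul]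
  rw [Finset.sum_congr rfl fun i _ => h5 i, Finset.sum_add_distrib, Finset.sum_neg_distrib,
    Finset.sum_const, card_univ, Fintype.card_fin, nsmul_eq_mul]
  have h6 : 0 ≤ Real.log (1 / r) := by
    refine Real.log_nonneg ?_
    rw [le_div_iff₀ hr0]
    linarith
  have h7 : ((m - 1 : ℕ) : ℝ) ≤ m := by exact_mod_cast Nat.sub_le m 1
  have h8 : (m : ℝ) * (((m - 1 : ℕ) : ℝ) * (Real.log (1 / r) / 2)) ≤
      (m : ℝ) ^ 2 / 2 * Real.log (1 / r) := by
    have h9 : (m : ℝ) * (((m - 1 : ℕ) : ℝ) * (Real.log (1 / r) / 2)) ≤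
        (m : ℝ) * ((m : ℝ) * (Real.log (1 / r) / 2)) := by
      refine mul_le_mul_of_nonneg_left ?_ (by positivity)
      exact mul_le_mul_of_nonneg_right h7 (by linarith)
    refine h9.trans (le_of_eq ?_)
    ring
  unfold le
  linarith

end Pool.Agent.SalemCount
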