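import Pool.Agent.Lib.MP_1f45fc_nt_SP.Newton
import Pool.Agent.Lib.MP_1f45fc_nt_SP.Energy

set_option autoImplicit false

/-! MP_1f45fc_nt, sparsity of Salem numbers: the discriminant. -/

namespace Pool.Agent.SalemCount

open Polynomial Finset

theorem eval_deriv {n : ℕ} (z : Fin n → ℂ) (i : Fin n) :
    (derivative (∏ j, (X - C (z j)))).eval (z i) = ∏ j ∈ univ.erase i, (z i - z j) := by
  rw [derivative_prod_finset, eval_finsetSum, Finset.sum_eq_single i]
  · rw [derivative_X_sub_C, mul_one, eval_prod]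
    refine Finset.prod_congr rfl fun j _ => ?_
    simp
  · intro j _ hji
    rw [derivative_X_sub_C, mul_one, eval_prod]
    refine Finset.prod_eq_zero (i := i) (by simp [Ne.symm hji]) ?_
    simp
  · intro h
    exact absurd (mem_univ i) h

theorem prod_diff_int {P : ℤ[X]} {n : ℕ} {z : Fin n → ℂ} (hz : RootsOf P z) :
    ∃ a : ℤ, ∏ i, ∏ j ∈ univ.erase i, (z i - z j) = (a : ℂ) := by
  have hmon : (P.map (Int.castRingHom ℂ)).Monic := by
    rw [hz]
    exact monic_prod_of_monic _ _ fun i _ => monic_X_sub_C (z i)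
  have hsp : (P.map (Int.castRingHom ℂ)).Splits := IsAlgClosed.splits _
  have h1 := resultant_eq_prod_eval (P.map (Int.castRingHom ℂ))
    (P.map (Int.castRingHom ℂ)).derivative (P.map (Int.castRingHom ℂ)).natDegree
    (natDegree_derivative_le _ |>.trans (Nat.sub_le _ _)) hsp
  rw [hmon.leadingCoeff, one_pow, one_mul, derivative_map, resultant_map_map] at h1
  have h2 : (P.map (Int.castRingHom ℂ)).roots = univ.val.map z := by
    rw [hz]
    have h3 : (∏ i, (X - C (z i))) = ((univ.val.map z).map fun t => X - C t).prod := by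
      rw [Multiset.map_map]
      rfl
    rw [h3, roots_multiset_prod_X_sub_C]
  rw [h2, Multiset.map_map, eq_intCast] at h1
  refine ⟨P.resultant (derivative P) (Polynomial.map (Int.castRingHom ℂ) P).natDegree
        (Polynomial.map (Int.castRingHom ℂ) P).natDegree, ?_⟩
  rw [h1]
  show _ = ∏ i, _
  refine Finset.prod_congr rfl fun i _ => ?_
  rw [Function.comp_apply, ← derivative_map, hz, eval_deriv]

/-- the discriminant is at least one -/
theorem le_nonneg {P : ℤ[X]} {n : ℕ} {z : Fin n → ℂ} (hz : RootsOf P z)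
    (hinj : Function.Injective z) : 0 ≤ le z := by
  obtain ⟨a, ha⟩ := prod_diff_int hz
  have hne : ∀ i, ∀ j ∈ univ.erase i, z i - z j ≠ 0 := fun i j hj =>
    sub_ne_zero.2 fun h => (Finset.ne_of_mem_erase hj) (hinj h).symm
  have h0 : ∏ i, ∏ j ∈ univ.erase i, (z i - z j) ≠ 0 :=
    Finset.prod_ne_zero_iff.2 fun i _ => Finset.prod_ne_zero_iff.2 fun j hj => hne i j hj
  have h1 : (1 : ℝ) ≤ ‖∏ i, ∏ j ∈ univ.erase i, (z i - z j)‖ := by
    rw [ha] at h0 ⊢
    have h2 : a ≠ 0 := by
      intro h
      rw [h] at h0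
      simp at h0
    rw [Complex.norm_intCast]
    exact_mod_cast Int.one_le_abs h2
  have h3 := Real.log_nonneg h1
  rw [norm_prod, Real.log_prod] at h3
  · refine h3.trans (le_of_eq ?_)
    unfold le
    refine Finset.sum_congr rfl fun i _ => ?_
    rw [norm_prod, Real.log_prod]
    intro j hj
    exact (norm_pos_iff.2 (hne i j hj)).ne'
  · intro i _
    exact (norm_pos_iff.2 (Finset.prod_ne_zero_iff.2 fun j hj => hne i j hj)).ne'

end Pool.Agent.SalemCount
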