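import Pool.Agent.Lib.MP_1f45fc_nt_SP.Dat
import Pool.Agent.Lib.MP_1f45fc_nt_SP.Count

set_option autoImplicit false

/-! MP_1f45fc_nt, sparsity of Salem numbers: coding of the trace sequences. -/

namespace Pool.Agent.SalemCount

open Finset

/-- prediction of the next term from the two previous ones -/
theorem predict {c β b N p0 p1 p2 : ℝ} (hβ : 1 < β) (hβc : β ≤ c) (hN : 0 ≤ N) (hb0 : 0 < b)
    (hb : 16 * N ≤ b) (h0 : |p0| ≤ N) (h1 : |p1| ≤ N) (h2 : |p2| ≤ N) :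
    |(β ^ 2 * b + p2) - (β * b + p1) ^ 2 / (b + p0)| ≤ 4 * c ^ 2 * (|p0| + |p1| + |p2|) := by
  have hp0 : -N ≤ p0 := (abs_le.1 h0).1
  have hy : 15 / 16 * b ≤ b + p0 := by linarith
  have hy0 : 0 < b + p0 := by linarith
  have hc2 : β ^ 2 ≤ c ^ 2 := pow_le_pow_left₀ (by linarith) hβc 2
  have hβ2 : 1 < β ^ 2 := by nlinarith
  have e1 : (β ^ 2 * b + p2) - (β * b + p1) ^ 2 / (b + p0) =
      (b * p2 + β ^ 2 * b * p0 - 2 * β * b * p1 + p0 * p2 - p1 * p1) / (b + p0) := by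
    field_simp
    ring
  rw [e1, abs_div, abs_of_pos hy0, div_le_iff₀ hy0]
  have a0 := abs_nonneg p0
  have a1 := abs_nonneg p1
  have a2 := abs_nonneg p2
  have hnum : |b * p2 + β ^ 2 * b * p0 - 2 * β * b * p1 + p0 * p2 - p1 * p1| ≤
      b * |p2| + β ^ 2 * b * |p0| + 2 * β * b * |p1| + N * |p2| + N * |p1| := by
    have t1 : |b * p2| = b * |p2| := by rw [abs_mul, abs_of_pos hb0]
    have t2 : |β ^ 2 * b * p0| = β ^ 2 * b * |p0| := by
      rw [abs_mul, abs_of_pos (by positivity)]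
    have t3 : |2 * β * b * p1| = 2 * β * b * |p1| := by
      rw [abs_mul, abs_of_pos (by positivity)]
    have t4 : |p0 * p2| ≤ N * |p2| := by
      rw [abs_mul]
      exact mul_le_mul_of_nonneg_right h0 a2
    have t5 : |p1 * p1| ≤ N * |p1| := by
      rw [abs_mul]
      exact mul_le_mul_of_nonneg_right h1 a1
    have s1 := abs_add_le (b * p2 + β ^ 2 * b * p0 - 2 * β * b * p1 + p0 * p2) (-(p1 * p1))
    have s2 := abs_add_le (b * p2 + β ^ 2 * b * p0 - 2 * β * b * p1) (p0 * p2)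
    have s3 := abs_add_le (b * p2 + β ^ 2 * b * p0) (-(2 * β * b * p1))
    have s4 := abs_add_le (b * p2) (β ^ 2 * b * p0)
    rw [abs_neg] at s1 s3
    rw [← sub_eq_add_neg] at s1 s3
    linarith
  refine hnum.trans ?_
  have u1 : N * |p2| ≤ b / 16 * |p2| := mul_le_mul_of_nonneg_right (by linarith) a2
  have u2 : N * |p1| ≤ b / 16 * |p1| := mul_le_mul_of_nonneg_right (by linarith) a1
  have u3 : 4 * c ^ 2 * (|p0| + |p1| + |p2|) * (15 / 16 * b) ≤
      4 * c ^ 2 * (|p0| + |p1| + |p2|) * (b + p0) :=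
    mul_le_mul_of_nonneg_left hy (by positivity)
  refine le_trans ?_ u3
  have v0 : β ^ 2 * b * |p0| ≤ c ^ 2 * b * |p0| := by
    refine mul_le_mul_of_nonneg_right ?_ a0
    exact mul_le_mul_of_nonneg_right hc2 hb0.le
  have v1 : 2 * β * b * |p1| ≤ 2 * c ^ 2 * b * |p1| := by
    refine mul_le_mul_of_nonneg_right ?_ a1
    refine mul_le_mul_of_nonneg_right ?_ hb0.le
    nlinarith
  have hc1 : 1 ≤ c ^ 2 := by linarith
  have w1 : b * |p1| ≤ c ^ 2 * (b * |p1|) := le_mul_of_one_le_left (by positivity) hc1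
  have w2 : b * |p2| ≤ c ^ 2 * (b * |p2|) := le_mul_of_one_le_left (by positivity) hc1
  have z0 : 0 ≤ c ^ 2 * (b * |p0|) := by positivity
  have z1 : 0 ≤ c ^ 2 * (b * |p1|) := by positivity
  have z2 : 0 ≤ c ^ 2 * (b * |p2|) := by positivity
  nlinarith

theorem round_le (u : ℝ) : |((round u : ℤ) : ℝ)| ≤ 2 * |u| := by
  rcases eq_or_ne (round u) 0 with h | h
  · rw [h]
    simp
  · have h1 : (1 : ℝ) ≤ |((round u : ℤ) : ℝ)| := by
      rw [← Int.cast_abs]
      exact_mod_cast Int.one_le_abs h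
    have h2 := abs_sub_round u
    have h3 : |((round u : ℤ) : ℝ)| ≤ |u| + |u - round u| := by
      have h4 : ((round u : ℤ) : ℝ) = u - (u - round u) := by ring
      calc |((round u : ℤ) : ℝ)| = |u - (u - round u)| := by rw [← h4]
        _ ≤ |u| + |u - round u| := abs_sub _ _
    linarith

/-- the grid -/
theorem grid {β t T0 : ℝ} {G n k : ℕ} (hG : 2 * n * T0 ≤ G) (hT0 : 16 ≤ T0) (hn : 1 ≤ n)
    (hk : k ≤ n) (ht1 : 1 ≤ t) (htβ : t ≤ β) (hβt : β ≤ t + 1 / G) (htk : t ^ k ≤ T0) :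
    |β ^ k - t ^ k| ≤ 1 := by
  have hn0 : (1 : ℝ) ≤ n := by exact_mod_cast hn
  have hG0 : (0 : ℝ) < G := by nlinarith
  have h1 : β ≤ t * (1 + 1 / G) := by
    have h2 : (1 : ℝ) / G ≤ t * (1 / G) := le_mul_of_one_le_left (by positivity) ht1
    linarith
  have hx : (n : ℝ) / G ≤ 1 / 2 := by
    rw [div_le_iff₀ hG0]
    nlinarith
  have hx0 : 0 < (n : ℝ) / G := by positivity
  have h2 : (1 + 1 / (G : ℝ)) ^ k ≤ 1 + 2 * (n / G) := by
    have h3 : (1 + 1 / (G : ℝ)) ^ k ≤ Real.exp (n / G) := by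
      have h4 : 1 + 1 / (G : ℝ) ≤ Real.exp (1 / G) := by
        have := Real.add_one_le_exp (1 / (G : ℝ))
        linarith
      have h5 : (1 : ℝ) ≤ 1 + 1 / (G : ℝ) := by
        have : (0 : ℝ) < 1 / G := by positivity
        linarith
      refine (pow_le_pow_right₀ h5 hk).trans ?_
      refine (pow_le_pow_left₀ (by positivity) h4 n).trans (le_of_eq ?_)
      rw [← Real.exp_nat_mul]
      congr 1
      ring
    refine h3.trans ?_
    have h6 : 1 - (n : ℝ) / G ≤ Real.exp (-(n / G)) := by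
      have := Real.add_one_le_exp (-((n : ℝ) / G))
      linarith
    have h7 : Real.exp (n / G) * Real.exp (-(n / G)) = 1 := by
      rw [← Real.exp_add, add_neg_cancel, Real.exp_zero]
    have h8 : Real.exp (n / G) * (1 - (n : ℝ) / G) ≤ 1 := by
      have h81 := mul_le_mul_of_nonneg_left h6 (Real.exp_pos ((n : ℝ) / G)).le
      linarith
    have h9 : 1 ≤ (1 + 2 * ((n : ℝ) / G)) * (1 - n / G) := by nlinarith
    by_contra hcon
    push Not at hcon
    have h10 : (1 + 2 * ((n : ℝ) / G)) * (1 - n / G) < Real.exp (n / G) * (1 - (n : ℝ) / G) :=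
      mul_lt_mul_of_pos_right hcon (by linarith)
    linarith
  have hβ0 : 0 ≤ β := by linarith
  have ht0 : 0 ≤ t := by linarith
  have h3 : β ^ k ≤ t ^ k * (1 + 2 * (n / G)) := by
    calc β ^ k ≤ (t * (1 + 1 / G)) ^ k := pow_le_pow_left₀ hβ0 h1 k
      _ = t ^ k * (1 + 1 / (G : ℝ)) ^ k := mul_pow _ _ _
      _ ≤ t ^ k * (1 + 2 * (n / G)) := mul_le_mul_of_nonneg_left h2 (by positivity)
  have h4 : t ^ k * (2 * (n / G)) ≤ 1 := by
    have h5 : t ^ k * (2 * ((n : ℝ) / G)) ≤ T0 * (2 * (n / G)) :=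
      mul_le_mul_of_nonneg_right htk (by positivity)
    refine h5.trans ?_
    have h6 : T0 * (2 * ((n : ℝ) / G)) = (2 * n * T0) / G := by ring
    rw [h6, div_le_one hG0]
    exact hG
  have h5 : t ^ k ≤ β ^ k := pow_le_pow_left₀ ht0 htβ k
  rw [abs_of_nonneg (by linarith)]
  linarith

/-- shifted sums -/
theorem sum_shift (f : ℕ → ℝ) (hf : ∀ k, 0 ≤ f k) (d n : ℕ) (hd : d ≤ 2) :
    ∑ k ∈ Icc 3 n, f (k - d) ≤ ∑ k ∈ Icc 1 n, f k := by
  have h1 : ∑ k ∈ Icc 3 n, f (k - d) = ∑ j ∈ (Icc 3 n).image (fun k => k - d), f j := by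
    rw [Finset.sum_image]
    intro a ha b hb hab
    rw [mem_coe, mem_Icc] at ha hb
    simp only at hab
    omega
  rw [h1]
  refine Finset.sum_le_sum_of_subset_of_nonneg ?_ fun k _ _ => hf k
  intro j hj
  rw [mem_image] at hj
  obtain ⟨k, hk, rfl⟩ := hj
  rw [mem_Icc] at hk ⊢
  omega

end Pool.Agent.SalemCount
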