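import Mathlib

set_option autoImplicit false

/-! MP_1f45fc_nt, sparsity of Salem numbers: power sums of the roots of integral polynomials. -/

namespace Pool.Agent.SalemCount

open Polynomial Finset

/-- `z` lists the complex roots of `P` -/
def RootsOf (P : ℤ[X]) {n : ℕ} (z : Fin n → ℂ) : Prop :=
  P.map (Int.castRingHom ℂ) = ∏ i, (X - C (z i))

/-- the power sums -/
noncomputable def ps {n : ℕ} (z : Fin n → ℂ) (k : ℕ) : ℂ := ∑ i, z i ^ k

/-- the elementary symmetric functions -/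
noncomputable def es {n : ℕ} (z : Fin n → ℂ) (k : ℕ) : ℂ :=
  MvPolynomial.aeval z (MvPolynomial.esymm (Fin n) ℤ k)

theorem aeval_psum {n : ℕ} (z : Fin n → ℂ) (k : ℕ) :
    MvPolynomial.aeval z (MvPolynomial.psum (Fin n) ℤ k) = ps z k := by
  unfold MvPolynomial.psum ps
  rw [map_sum]
  refine Finset.sum_congr rfl fun i _ => ?_
  rw [map_pow, MvPolynomial.aeval_X]

/-- Newton's identity -/
theorem newton {n : ℕ} (z : Fin n → ℂ) (k : ℕ) :
    (k : ℂ) * es z k = (-1) ^ (k + 1) *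
      ∑ a ∈ antidiagonal k with a.1 < k, (-1) ^ a.1 * es z a.1 * ps z a.2 := by
  have h := congrArg (MvPolynomial.aeval z) (MvPolynomial.mul_esymm_eq_sum (Fin n) ℤ k)
  rw [map_mul, map_natCast, map_mul, map_pow, map_neg, map_one, map_sum] at h
  unfold es
  rw [h]
  congr 1
  refine Finset.sum_congr rfl fun a _ => ?_
  rw [map_mul, map_mul, map_pow, map_neg, map_one, aeval_psum]

theorem newton' {n : ℕ} (z : Fin n → ℂ) (k : ℕ) (hk : 0 < k) :
    ps z k = (-1) ^ (k + 1) * k * es z k -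
      ∑ a ∈ antidiagonal k with a.1 ∈ Set.Ioo 0 k, (-1) ^ a.1 * es z a.1 * ps z a.2 := by
  have h := congrArg (MvPolynomial.aeval z) (MvPolynomial.psum_eq_mul_esymm_sub_sum (Fin n) ℤ k hk)
  simp only [map_sub, map_mul, map_natCast, map_pow, map_neg, map_one, map_sum, aeval_psum] at h
  exact h

theorem natDegree_of_roots {P : ℤ[X]} {n : ℕ} {z : Fin n → ℂ} (hz : RootsOf P z) :
    P.natDegree = n := by
  have h1 := congrArg Polynomial.natDegree hz
  rw [Polynomial.natDegree_map_eq_of_injective (Int.cast_injective),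
    Polynomial.natDegree_prod_of_monic _ _ fun i _ => monic_X_sub_C (z i)] at h1
  simpa using h1

/-- elementary symmetric functions are coefficients -/
theorem es_eq {P : ℤ[X]} {n : ℕ} {z : Fin n → ℂ} (hz : RootsOf P z) {k : ℕ} (hk : k ≤ n) :
    es z k = (((-1) ^ k * P.coeff (n - k) : ℤ) : ℂ) := by
  unfold es
  rw [MvPolynomial.aeval_esymm_eq_multiset_esymm]
  have h1 := Multiset.prod_X_sub_C_coeff (univ.val.map z) (k := n - k) (by simp)
  have h2 : ((univ.val.map z).map fun t => X - C t).prod = ∏ i, (X - C (z i)) := by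
    rw [Multiset.map_map]
    rfl
  rw [h2, ← hz, Polynomial.coeff_map] at h1
  have h3 : (Multiset.card (univ.val.map z)) - (n - k) = k := by
    simp
    omega
  rw [h3] at h1
  push_cast
  rw [eq_intCast] at h1
  rw [h1, ← mul_assoc, ← mul_pow]
  simp

theorem es_zero_of_gt {n : ℕ} (z : Fin n → ℂ) {k : ℕ} (hk : n < k) : es z k = 0 := by
  unfold es MvPolynomial.esymm
  rw [Finset.powersetCard_eq_empty.2 (by simpa using hk)]
  simp

theorem es_int {P : ℤ[X]} {n : ℕ} {z : Fin n → ℂ} (hz : RootsOf P z) (k : ℕ) :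
    ∃ a : ℤ, es z k = a := by
  rcases Nat.lt_or_ge n k with h | h
  · exact ⟨0, by rw [es_zero_of_gt z h]; simp⟩
  · exact ⟨_, es_eq hz h⟩

theorem ps_int {P : ℤ[X]} {n : ℕ} {z : Fin n → ℂ} (hz : RootsOf P z) (k : ℕ) :
    ∃ a : ℤ, ps z k = a := by
  induction k using Nat.strong_induction_on with
  | _ k ih =>
  rcases Nat.eq_zero_or_pos k with rfl | hk
  · exact ⟨n, by unfold ps; simp⟩
  rw [newton' z k hk]
  obtain ⟨e, he⟩ := es_int hz k
  choose f hf using fun j => es_int hz j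
  have h1 : ∀ j, ∃ a : ℤ, j < k → ps z j = a := by
    intro j
    by_cases hj : j < k
    · obtain ⟨a, ha⟩ := ih j hj
      exact ⟨a, fun _ => ha⟩
    · exact ⟨0, fun h => absurd h hj⟩
  choose g hg using h1
  refine ⟨(-1) ^ (k + 1) * k * e - ∑ a ∈ antidiagonal k with a.1 ∈ Set.Ioo 0 k,
    (-1) ^ a.1 * f a.1 * g a.2, ?_⟩
  push_cast
  rw [he]
  congr 1
  refine Finset.sum_congr rfl fun a ha => ?_
  rw [mem_filter, Finset.HasAntidiagonal.mem_antidiagonal] at ha
  have h3 := ha.2.1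
  have h4 := ha.2.2
  rw [hf, hg a.2 (by omega)]

/-- the power sums determine the elementary symmetric functions -/
theorem es_det {n m : ℕ} (z : Fin n → ℂ) (w : Fin m → ℂ) (k : ℕ)
    (h : ∀ j, 1 ≤ j → j ≤ k → ps z j = ps w j) : ∀ j, j ≤ k → es z j = es w j := by
  intro j
  induction j using Nat.strong_induction_on with
  | _ j ih =>
  intro hj
  rcases Nat.eq_zero_or_pos j with rfl | hj0
  · unfold es
    rw [MvPolynomial.esymm_zero, MvPolynomial.esymm_zero, map_one, map_one]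
  have h1 := newton z j
  have h2 := newton w j
  have h3 : ∑ a ∈ antidiagonal j with a.1 < j, (-1) ^ a.1 * es z a.1 * ps z a.2 =
      ∑ a ∈ antidiagonal j with a.1 < j, (-1) ^ a.1 * es w a.1 * ps w a.2 := by
    refine Finset.sum_congr rfl fun a ha => ?_
    rw [mem_filter, Finset.HasAntidiagonal.mem_antidiagonal] at ha
    rw [ih a.1 ha.2 (by omega), h a.2 (by omega) (by omega)]
  rw [h3, ← h2] at h1
  have h4 : (j : ℂ) ≠ 0 := by exact_mod_cast hj0.ne'
  exact mul_left_cancel₀ h4 h1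

/-- the congruences between power sums -/
theorem ps_congr {P Q : ℤ[X]} {n m : ℕ} {z : Fin n → ℂ} {w : Fin m → ℂ} (hz : RootsOf P z)
    (hw : RootsOf Q w) (k : ℕ) (hk : 1 ≤ k) (h : ∀ j, 1 ≤ j → j < k → ps z j = ps w j)
    (a b : ℤ) (ha : ps z k = a) (hb : ps w k = b) : (k : ℤ) ∣ a - b := by
  have he : ∀ j, j ≤ k - 1 → es z j = es w j :=
    es_det z w (k - 1) fun j h1 h2 => h j h1 (by omega)
  have h1 := newton' z k hk
  have h2 := newton' w k hk
  have h3 : ∑ a ∈ antidiagonal k with a.1 ∈ Set.Ioo 0 k, (-1) ^ a.1 * es z a.1 * ps z a.2 =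
      ∑ a ∈ antidiagonal k with a.1 ∈ Set.Ioo 0 k, (-1) ^ a.1 * es w a.1 * ps w a.2 := by
    refine Finset.sum_congr rfl fun a ha => ?_
    rw [mem_filter, Finset.HasAntidiagonal.mem_antidiagonal] at ha
    have h4 := ha.2.1
    have h5 := ha.2.2
    rw [he a.1 (by omega), h a.2 (by omega) (by omega)]
  obtain ⟨e, hee⟩ := es_int hz k
  obtain ⟨f, hf⟩ := es_int hw k
  rw [h3, hee, ha] at h1
  rw [hf, hb] at h2
  have h6 : ((a - b : ℤ) : ℂ) = ((k * ((-1) ^ (k + 1) * (e - f)) : ℤ) : ℂ) := by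
    push_cast
    rw [h1, h2]
    ring
  exact ⟨(-1) ^ (k + 1) * (e - f), by exact_mod_cast h6⟩

/-- the power sums determine the polynomial -/
theorem eq_of_ps {P Q : ℤ[X]} {n : ℕ} {z w : Fin n → ℂ} (hz : RootsOf P z) (hw : RootsOf Q w)
    (h : ∀ j, 1 ≤ j → j ≤ n → ps z j = ps w j) : P = Q := by
  have he := es_det z w n h
  ext j
  rcases Nat.lt_or_ge n j with hj | hj
  · rw [Polynomial.coeff_eq_zero_of_natDegree_lt (by rw [natDegree_of_roots hz]; exact hj),
      Polynomial.coeff_eq_zero_of_natDegree_lt (by rw [natDegree_of_roots hw]; exact hj)]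
  · have h1 := he (n - j) (Nat.sub_le _ _)
    rw [es_eq hz (Nat.sub_le _ _), es_eq hw (Nat.sub_le _ _), Nat.sub_sub_self hj] at h1
    have h2 : (-1) ^ (n - j) * P.coeff j = (-1) ^ (n - j) * Q.coeff j := by exact_mod_cast h1
    exact mul_left_cancel₀ (by simp) h2

end Pool.Agent.SalemCount
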